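import Pool.Agent.Work.MP_db9399_og.Interface
import Pool.Agent.Work.MP_db9399_cg_helper68.A1N

/-!
# MP_db9399, OWNG, block A1T (helper89): labels for several graphs with edge tests
-/

set_option autoImplicit false

namespace Pool.Agent.Work.MP_db9399_og.helper89

open Finset Classical
open Pool.Agent.Work.MP_db9399_all (nb pr DepOnI PackI Stmt_LLLI)
open Pool.Agent.Work.MP_db9399_cg
open Pool.Agent.Work.MP_db9399_en
open Pool.Agent.Work.MP_db9399_cg.helper68

universe u

section tests

variable {V : Type u} [Fintype V]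

/-- the edge tests at a vertex -/
def Tst {q : ℕ} (G : SimpleGraph V) (d n1 n2 : ℕ) (X : Fin q → V → V → Prop) (v : V)
    (ω : V → Fin (n2 * n1)) : Prop :=
  ∀ i, (((nb G v).filter fun w => X i v w ∧ (ω w : ℕ) % n1 = 0).card : ℝ) ≤
    ((nb G v).filter fun w => X i v w).card / 2 + √d * Real.log d

theorem tst_dep {q : ℕ} (G : SimpleGraph V) (d n1 n2 : ℕ) (X : Fin q → V → V → Prop) (v : V) :
    DepOnI (ball G v 2) (Tst G d n1 n2 X v) := by
  intro a b hab
  have hv : ∀ x ∈ nb G v, x ∈ ball G v 2 := by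
    intro x hx
    rw [ball, mem_union]
    refine Or.inl ?_
    rw [ball, mem_union, mem_biUnion]
    exact Or.inr ⟨v, by simp [ball], hx⟩
  unfold Tst
  refine forall_congr fun i => ?_
  have : ((nb G v).filter fun w => X i v w ∧ (a w : ℕ) % n1 = 0) =
      (nb G v).filter fun w => X i v w ∧ (b w : ℕ) % n1 = 0 :=
    filter_congr fun w hw => by rw [hab w (hv w hw)]
  rw [this]

theorem tst_pr {q : ℕ} {G : SimpleGraph V} {d : ℕ} (hG : Reg G d) (n1 n2 : ℕ) (h1 : 64 ≤ n1)
    (h2 : 4 ≤ n2) (X : Fin q → V → V → Prop) (v : V) (hd : 1 ≤ d) (hl : 80 ≤ Real.log d) :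
    pr (fun ω : V → Fin (n2 * n1) => ¬ Tst G d n1 n2 X v ω) ≤ 2 * q / (d : ℝ) ^ 8 := by
  have hM : 0 < n2 * n1 := Nat.mul_pos (by omega) (by omega)
  have hdp : (0 : ℝ) < d := by exact_mod_cast hd
  have hd1 : (1 : ℝ) ≤ d := by exact_mod_cast hd
  have hn1 : (64 : ℝ) ≤ n1 := by exact_mod_cast h1
  have hl0 : 0 ≤ Real.log d := by linarith
  set t := √d * Real.log d with ht
  have ht0 : 0 ≤ t := by positivity
  have hb0 : (0 : ℝ) ≤ 1 / n1 := by positivity
  have hb1 : (1 : ℝ) / n1 ≤ 1 / 2 := by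
    rw [div_le_div_iff₀ (by linarith) (by norm_num)]
    linarith
  have s1 : Real.exp (-(Real.log d ^ 2 / 2)) ≤ 1 / (d : ℝ) ^ 10 := exp_small hd (by nlinarith)
  have key : ∀ i : Fin q, pr (fun ω : V → Fin (n2 * n1) =>
      ((nb G v).filter fun w => X i v w).card / 2 + √d * Real.log d <
      (((nb G v).filter fun w => X i v w ∧ (ω w : ℕ) % n1 = 0).card : ℝ)) ≤
      2 / (d : ℝ) ^ 8 := by
    intro i
    set A := (nb G v).filter fun w => X i v w with hA
    have hAc : A.card ≤ d := (card_le_card (filter_subset _ _)).trans (hG v).le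
    rcases Nat.eq_zero_or_pos A.card with h0 | h0
    · have h3 : ∀ ω : V → Fin (n2 * n1),
          ¬ ((A.card : ℝ) / 2 + √d * Real.log d <
          (((nb G v).filter fun w => X i v w ∧ (ω w : ℕ) % n1 = 0).card : ℝ)) := by
        intro ω
        rw [not_lt]
        have h4 : ((nb G v).filter fun w => X i v w ∧ (ω w : ℕ) % n1 = 0) ⊆ A := by
          intro w hw
          rw [mem_filter] at hw ⊢
          exact ⟨hw.1, hw.2.1⟩
        have h5 := card_le_card h4
        rw [h0] at h5
        have h6 : ((nb G v).filter fun w => X i v w ∧ (ω w : ℕ) % n1 = 0).card = 0 := by omega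
        rw [h6, h0]
        simp only [Nat.cast_zero, zero_div, zero_add]
        exact ht0
      have h7 : pr (fun ω : V → Fin (n2 * n1) => (A.card : ℝ) / 2 + √d * Real.log d <
          (((nb G v).filter fun w => X i v w ∧ (ω w : ℕ) % n1 = 0).card : ℝ)) = 0 := by
        unfold pr
        rw [filter_false_of_mem fun ω _ => h3 ω]
        simp
      rw [h7]
      positivity
    · have hAp : (0 : ℝ) < A.card := by exact_mod_cast h0
      have hAd : (A.card : ℝ) ≤ d := by exact_mod_cast hAc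
      have E := hoeff hM (fun i : Fin (n2 * n1) => (i : ℕ) % n1 = 0) (1 / n1) hb0
        (by linarith) (mean_K n1 n2 (by omega)) A h0 ht0
      have hexp : Real.exp (-(t ^ 2 / (2 * (A.card : ℝ)))) ≤ Real.exp (-(Real.log d ^ 2 / 2)) := by
        refine Real.exp_le_exp.2 (neg_le_neg ?_)
        rw [div_le_div_iff₀ (by norm_num) (by positivity), ht, mul_pow, Real.sq_sqrt hdp.le]
        have := mul_le_mul_of_nonneg_right hAd (sq_nonneg (Real.log d))
        nlinarith
      have hsub : pr (fun ω : V → Fin (n2 * n1) => (A.card : ℝ) / 2 + √d * Real.log d <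
          (((nb G v).filter fun w => X i v w ∧ (ω w : ℕ) % n1 = 0).card : ℝ)) ≤
          pr (fun ω : V → Fin (n2 * n1) =>
            t < |((A.filter fun y => (ω y : ℕ) % n1 = 0).card : ℝ) - 1 / n1 * A.card|) := by
        refine pr_mono fun ω hω => ?_
        have e : (nb G v).filter (fun w => X i v w ∧ (ω w : ℕ) % n1 = 0) =
            A.filter fun y => (ω y : ℕ) % n1 = 0 := by
          rw [hA, filter_filter]
        rw [e] at hω
        refine lt_of_lt_of_le ?_ (le_abs_self _)
        have h3 := mul_le_mul_of_nonneg_right hb1 hAp.le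
        rw [← ht] at hω
        linarith
      refine hsub.trans (E.trans ?_)
      have h8 : 2 * (1 / (d : ℝ) ^ 10) ≤ 2 / (d : ℝ) ^ 8 := by
        rw [mul_one_div, div_le_div_iff₀ (by positivity) (by positivity)]
        have : (d : ℝ) ^ 10 = d ^ 8 * d ^ 2 := by ring
        rw [this]
        have h6 : 0 < (d : ℝ) ^ 8 := by positivity
        have h7 : (1 : ℝ) ≤ (d : ℝ) ^ 2 := by nlinarith
        have := mul_le_mul_of_nonneg_left h7 h6.le
        linarith
      linarith
  have hU : pr (fun ω : V → Fin (n2 * n1) => ¬ Tst G d n1 n2 X v ω) ≤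
      pr (fun ω : V → Fin (n2 * n1) => ∃ i ∈ (univ : Finset (Fin q)),
        ((nb G v).filter fun w => X i v w).card / 2 + √d * Real.log d <
        (((nb G v).filter fun w => X i v w ∧ (ω w : ℕ) % n1 = 0).card : ℝ)) := by
    refine pr_mono fun ω hω => ?_
    unfold Tst at hω
    push Not at hω
    obtain ⟨i, hi⟩ := hω
    exact ⟨i, mem_univ i, hi⟩
  refine hU.trans ((pr_ex _ _).trans ((sum_le_sum fun i _ => key i).trans ?_))
  rw [sum_const, card_univ, Fintype.card_fin, nsmul_eq_mul]
  exact le_of_eq (by ring)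

end tests

/-- **A1T**: labels for several graphs at once, with edge tests. -/
theorem stmt_A1T : MP_db9399_og.Stmt_A1T.{u} := by
  intro a C n2 q ha _ha1 h2 hC
  have hlog : ∀ s C : ℝ, 0 < s → 0 < C → ∃ N : ℕ, ∀ d : ℕ, N ≤ d →
      C * Real.log d ≤ (d : ℝ) ^ s := by
    intro s C hs hC
    have h := (isLittleO_log_rpow_atTop hs).bound (show 0 < 1 / C by positivity)
    obtain ⟨X, hX⟩ := Filter.eventually_atTop.1 h
    refine ⟨max 1 ⌈X⌉₊, fun d hd => ?_⟩
    have hd1 : 1 ≤ d := le_trans (le_max_left _ _) hd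
    have hdX : X ≤ (d : ℝ) := (Nat.le_ceil X).trans (by
      exact_mod_cast le_trans (le_max_right _ _) hd)
    have hdr : (1 : ℝ) ≤ d := by exact_mod_cast hd1
    have h3 := hX d hdX
    rw [Real.norm_of_nonneg (Real.log_nonneg hdr),
      Real.norm_of_nonneg (Real.rpow_nonneg (by linarith) s)] at h3
    have h4 := mul_le_mul_of_nonneg_left h3 hC.le
    have h5 : C * (1 / C * (d : ℝ) ^ s) = (d : ℝ) ^ s := by
      field_simp
    linarith
  obtain ⟨N1, hN1⟩ := hlog (3 * a) 100 (by linarith) (by norm_num)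
  obtain ⟨N2, hN2⟩ := hlog (1 / 5) 20 (by norm_num) (by norm_num)
  set N0 : ℕ := max ⌈Real.exp 80⌉₊ (max N1 N2) with hN0
  have hC0 : 0 < C := by linarith
  set F : ℝ := 40 + 2 * q with hF
  have hF40 : 40 ≤ F := by
    have : (0 : ℝ) ≤ q := Nat.cast_nonneg q
    linarith
  have hF0 : 0 < F := by linarith
  refine ⟨max ⌈C * (N0 + 1)⌉₊ ⌈12 * F * C ^ 7⌉₊, ?_⟩
  intro W J _ _ Vj _ π G d D X hd hπ hD hJ hG
  -- every `D j` is large
  have hdN : C * (N0 + 1) ≤ d := (Nat.le_ceil _).trans (by
    exact_mod_cast le_trans (le_max_left _ _) hd)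
  have hdC : 12 * F * C ^ 7 ≤ d := (Nat.le_ceil _).trans (by
    exact_mod_cast le_trans (le_max_right _ _) hd)
  have hDN : ∀ j, N0 ≤ D j := by
    intro j
    have h3 : C * ((N0 : ℝ) + 1) ≤ C * D j := hdN.trans (hD j).2
    have h4 : (N0 : ℝ) + 1 ≤ D j := le_of_mul_le_mul_left h3 hC0
    have h5 : (N0 : ℝ) ≤ D j := by linarith
    exact_mod_cast h5
  have hl1 : ∀ j, 100 * Real.log (D j) ≤ (D j : ℝ) ^ (3 * a) := fun j =>
    hN1 _ (le_trans (le_trans (le_max_left _ _) (le_max_right _ _)) (hDN j))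
  have hl2 : ∀ j, 20 * Real.log (D j) ≤ (D j : ℝ) ^ (1 / 5 : ℝ) := fun j =>
    hN2 _ (le_trans (le_trans (le_max_right _ _) (le_max_right _ _)) (hDN j))
  have hD80 : ∀ j, (81 : ℝ) ≤ D j := by
    intro j
    have h3 : Real.exp 80 ≤ D j := (Nat.le_ceil _).trans (by
      exact_mod_cast le_trans (le_max_left _ _) (hDN j))
    have := Real.add_one_le_exp (80 : ℝ)
    linarith
  have hDp : ∀ j, (0 : ℝ) < D j := fun j => by have := hD80 j; linarith
  have hD1 : ∀ j, 1 ≤ D j := fun j => by
    have : (1 : ℝ) ≤ D j := by have := hD80 j; linarith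
    exact_mod_cast this
  have hl : ∀ j, 80 ≤ Real.log (D j) := by
    intro j
    rw [Real.le_log_iff_exp_le (hDp j)]
    exact (Nat.le_ceil _).trans (by exact_mod_cast le_trans (le_max_left _ _) (hDN j))
  have hM : 0 < n2 * 64 := Nat.mul_pos (by omega) (by omega)
  have hreg : ∀ j v, (nb (G j) v).card ≤ D j := fun j v => (hG j v).le
  have hd480 : (480 : ℝ) ≤ d := by
    have : (1 : ℝ) ≤ C ^ 7 := one_le_pow₀ hC
    nlinarith
  have hdp : (0 : ℝ) < d := by linarith
  obtain ⟨ω, hω⟩ := Pool.Agent.Work.MP_db9399_all.stmt_LLLI.{u} W (n2 * 64) (Σ j, Vj j)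
    (1 / (d : ℝ) ^ 3) (fun r => (ball (G r.1) r.2 2).image (π r.1))
    (fun r => 3 * F / (D r.1 : ℝ) ^ 8)
    (fun r ω => Okv (G r.1) (D r.1) a 64 n2 r.2 (fun x => ω (π r.1 x)) ∧
      Tst (G r.1) (D r.1) 64 n2 (fun i => X r.1 i) r.2 fun x => ω (π r.1 x)) hM
    (by positivity) (by
      rw [div_le_div_iff₀ (by positivity) (by norm_num)]
      have : (480 : ℝ) ^ 3 ≤ (d : ℝ) ^ 3 := pow_le_pow_left₀ (by norm_num) hd480 3
      norm_num at this
      linarith)
    (fun r => by
      obtain ⟨j, v⟩ := r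
      refine packI_one (p := F / (D j : ℝ) ^ 8) (s := ((D j : ℝ) + 1) ^ 2) (by positivity)
        (dep_pull (π j) (E := fun ω => Okv (G j) (D j) a 64 n2 v ω ∧
          Tst (G j) (D j) 64 n2 (fun i => X j i) v ω) fun f g hfg =>
          congrArg₂ And (okv_dep (G j) (D j) a 64 n2 v f g hfg)
            (tst_dep (G j) (D j) 64 n2 (fun i => X j i) v f g hfg)) ⟨π j v, ?_⟩ ?_ ?_ ?_
      · refine mem_image_of_mem _ ?_
        rw [ball, mem_union, ball, mem_union]
        exact Or.inl (Or.inl (by simp [ball]))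
      · have h3 := (card_image_le (s := ball (G j) v 2) (f := π j)).trans (card_ball (hreg j) v 2)
        exact_mod_cast h3
      · have h3 := pr_pull hM (π j) (hπ j) (fun ω => ¬ (Okv (G j) (D j) a 64 n2 v ω ∧
          Tst (G j) (D j) 64 n2 (fun i => X j i) v ω))
        rw [h3]
        have h4 := okv_pr (hG j) a 64 n2 le_rfl h2 v (hD1 j) (hl j) (hl1 j) (hl2 j)
        have h5 := tst_pr (hG j) 64 n2 le_rfl h2 (fun i => X j i) v (hD1 j) (hl j)
        have h6 : pr (fun ω => ¬ (Okv (G j) (D j) a 64 n2 v ω ∧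
            Tst (G j) (D j) 64 n2 (fun i => X j i) v ω)) ≤
            pr (fun ω => ¬ Okv (G j) (D j) a 64 n2 v ω ∨
              ¬ Tst (G j) (D j) 64 n2 (fun i => X j i) v ω) :=
          pr_mono fun ω hω => not_and_or.1 hω
        refine h6.trans ((pr_or _ _).trans ?_)
        rw [hF, add_div]
        exact add_le_add h4 h5
      · have hDd : (D j : ℝ) ≤ d := by exact_mod_cast (hD j).1
        have hp := hDp j
        have h80 := hD80 j
        have h3 : Real.exp (2 * (1 / (d : ℝ) ^ 3) * ((D j : ℝ) + 1) ^ 2) ≤ 3 := by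
          have h4 : 2 * (1 / (d : ℝ) ^ 3) * ((D j : ℝ) + 1) ^ 2 ≤ 1 := by
            have e : 2 * (1 / (d : ℝ) ^ 3) * ((D j : ℝ) + 1) ^ 2 =
                2 * ((D j : ℝ) + 1) ^ 2 / (d : ℝ) ^ 3 := by ring
            rw [e, div_le_one (by positivity)]
            have h5 : (D j : ℝ) ^ 3 ≤ (d : ℝ) ^ 3 := pow_le_pow_left₀ hp.le hDd 3
            nlinarith [sq_nonneg (D j : ℝ)]
          have h5 := Real.exp_le_exp.2 h4
          have h6 := Real.exp_one_lt_d9
          linarith
        have h7 : F / (D j : ℝ) ^ 8 * 3 = 3 * F / (D j : ℝ) ^ 8 := by ring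
        rw [← h7]
        exact mul_le_mul_of_nonneg_left h3 (by positivity))
    (fun y => by
      rw [sum_filter, ← univ_sigma_univ, sum_sigma]
      have h3 : ∀ j : J, ∑ v : Vj j, (if y ∈ (ball (G j) v 2).image (π j) then
          3 * F / (D j : ℝ) ^ 8 else 0) ≤ 12 * F * C ^ 6 / (d : ℝ) ^ 6 := by
        intro j
        have hp := hDp j
        have h80 := hD80 j
        rw [← sum_filter, sum_const, nsmul_eq_mul]
        have h4 : (((univ.filter fun v => y ∈ (ball (G j) v 2).image (π j)).card : ℕ) : ℝ) ≤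
            ((D j : ℝ) + 1) ^ 2 := by
          by_cases hy : ∃ x, π j x = y
          · obtain ⟨x, rfl⟩ := hy
            have h5 : (univ.filter fun v => π j x ∈ (ball (G j) v 2).image (π j)) ⊆
                ball (G j) x 2 := by
              intro v hv
              rw [mem_filter] at hv
              obtain ⟨z, hz, hzx⟩ := mem_image.1 hv.2
              rw [hπ j hzx] at hz
              exact ball_symm 2 x hz
            have h6 := (card_le_card h5).trans (card_ball (hreg j) x 2)
            exact_mod_cast h6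
          · have h5 : (univ.filter fun v => y ∈ (ball (G j) v 2).image (π j)) = ∅ := by
              rw [filter_eq_empty_iff]
              intro v _ hv
              obtain ⟨z, _, hzx⟩ := mem_image.1 hv
              exact hy ⟨z, hzx⟩
            rw [h5, card_empty, Nat.cast_zero]
            positivity
        refine (mul_le_mul_of_nonneg_right h4 (by positivity)).trans ?_
        have h5 : ((D j : ℝ) + 1) ^ 2 * (3 * F / (D j : ℝ) ^ 8) ≤ 12 * F / (D j : ℝ) ^ 6 := by
          have e : ((D j : ℝ) + 1) ^ 2 * (3 * F / (D j : ℝ) ^ 8) =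
              3 * F * ((D j : ℝ) + 1) ^ 2 / (D j : ℝ) ^ 8 := by ring
          rw [e, div_le_div_iff₀ (by positivity) (by positivity)]
          have : (D j : ℝ) ^ 8 = (D j : ℝ) ^ 6 * (D j : ℝ) ^ 2 := by ring
          rw [this]
          have h6 : 0 < (D j : ℝ) ^ 6 := by positivity
          have h8 : 3 * ((D j : ℝ) + 1) ^ 2 ≤ 12 * (D j : ℝ) ^ 2 := by nlinarith
          have h7 : 3 * F * ((D j : ℝ) + 1) ^ 2 ≤ 12 * F * (D j : ℝ) ^ 2 := by
            have := mul_le_mul_of_nonneg_left h8 hF0.le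
            linarith
          have := mul_le_mul_of_nonneg_left h7 h6.le
          linarith
        refine h5.trans ?_
        rw [div_le_div_iff₀ (by positivity) (by positivity)]
        have h6 : (d : ℝ) ^ 6 ≤ (C * D j) ^ 6 := pow_le_pow_left₀ hdp.le (hD j).2 6
        rw [mul_pow] at h6
        have := mul_le_mul_of_nonneg_left h6 (show (0 : ℝ) ≤ 12 * F by positivity)
        linarith
      refine (sum_le_sum fun j _ => h3 j).trans ?_
      rw [sum_const, nsmul_eq_mul, card_univ]
      have h4 : (Fintype.card J : ℝ) * (12 * F * C ^ 6 / (d : ℝ) ^ 6) ≤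
          C * (12 * F * C ^ 6 / (d : ℝ) ^ 6) := mul_le_mul_of_nonneg_right hJ (by positivity)
      refine h4.trans ?_
      have e : C * (12 * F * C ^ 6 / (d : ℝ) ^ 6) = 12 * F * C ^ 7 / (d : ℝ) ^ 6 := by ring
      rw [e, div_le_div_iff₀ (by positivity) (by positivity)]
      have : (d : ℝ) ^ 6 = d ^ 3 * d ^ 3 := by ring
      rw [this]
      have h6 : 0 < (d : ℝ) ^ 3 := by positivity
      have h7 : 12 * F * C ^ 7 ≤ (d : ℝ) ^ 3 := by
        refine hdC.trans ?_
        nlinarith [sq_nonneg (d : ℝ)]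
      have := mul_le_mul_of_nonneg_right h7 h6.le
      linarith)
  have h64 : (((64 : ℕ) : ℝ)) = 64 := by norm_num
  have hcK : ∀ j, cK 64 n2 (fun x => ω (π j x)) = univ.filter fun x => π j x ∈ cK 64 n2 ω := by
    intro j
    ext x
    simp [cK]
  have hcM : ∀ j s, cM 64 n2 (fun x => ω (π j x)) s =
      univ.filter fun x => π j x ∈ cM 64 n2 ω s := by
    intro j s
    ext x
    simp [cM]
  refine ⟨cK 64 n2 ω, cM 64 n2 ω, fun j => ?_⟩
  have hj : ∀ v, Okv (G j) (D j) a 64 n2 v fun x => ω (π j x) := fun v => (hω ⟨j, v⟩).1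
  have hjt : ∀ v, Tst (G j) (D j) 64 n2 (fun i => X j i) v fun x => ω (π j x) := fun v =>
    (hω ⟨j, v⟩).2
  have hDpj := hDp j
  rw [← hcK j]
  have hMM : (fun s => univ.filter fun x => π j x ∈ cM 64 n2 ω s) =
      cM 64 n2 (fun x => ω (π j x)) := by
    funext s
    exact (hcM j s).symm
  rw [hMM]
  refine ⟨⟨?_, fun v => ?_, fun v => ?_, fun s v => ?_, fun s v => ?_,
    fun u w hw => ?_, fun u => (hj u).p2⟩, fun i v => ?_⟩
  · rw [disjoint_left]
    intro x hx hx'
    simp only [cM, mem_filter, mem_univ, true_and, if_true, Bool.false_eq_true, if_false] at hx hx'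
    omega
  · have := (hj v).k
    rwa [h64] at this
  · have := (hj v).q
    rwa [h64] at this
  · have := (hj v).m1 s
    rwa [h64] at this
  · have := (hj v).m2 s
    rwa [h64] at this
  · refine (hj u).p1 w ?_ hw
    have hpos : 0 < cdg (G j) u w := (Real.rpow_pos_of_pos hDpj _).trans_le hw
    unfold cdg at hpos
    have hc : 0 < (nb (G j) u ∩ nb (G j) w).card := by exact_mod_cast hpos
    obtain ⟨y, hy⟩ := card_pos.1 hc
    rw [mem_inter] at hy
    rw [ball, mem_union, mem_biUnion]
    refine Or.inr ⟨y, ?_, mem_nb.2 (mem_nb.1 hy.2).symm⟩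
    rw [ball, mem_union, mem_biUnion]
    exact Or.inr ⟨u, by simp [ball], hy.1⟩
  · have h3 := hjt v i
    have e : (nb (G j) v).filter (fun w => X j i v w ∧ π j w ∈ cK 64 n2 ω) =
        (nb (G j) v).filter fun w => X j i v w ∧ ((ω (π j w) : Fin (n2 * 64)) : ℕ) % 64 = 0 := by
      refine filter_congr fun w _ => ?_
      simp [cK]
    rw [e]
    exact h3

end Pool.Agent.Work.MP_db9399_og.helper89
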